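import Pool.Agent.H8.WP.Targets

/-!
# One transitive relation (MP_64fb07_lc), module IX: the numbered form
-/

set_option autoImplicit false

namespace Pool.Agent.H56.WP

open Pool.Agent.H69.Sp Pool.Agent.H69.Mt Pool.Agent.H16.TO Pool.Agent.H8.PL Pool.Agent.H8.DI
open Pool.Agent.H8.WP

theorem pf_ix (hRK : W_RK) (hSU : W_SU) (hAI : W_AI) (hAF : W_AF) : W_IX := by
  classical
  intro V Q _ _ U Hh Vv st lt S I D F G hA htr
  obtain ⟨rk, M, hR⟩ := hRK V (fun x => (st x).s) lt hA.irr htr hA.tot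
  obtain ⟨hM0, hmm, hS⟩ := hSU V Q U Hh Vv st lt S I D F G rk M hA hR
  obtain ⟨hMM, hI⟩ := hAI V Q U Hh Vv st lt S I D F G rk M hA htr hR
  obtain ⟨q, hq0, hqM, hfl, hF⟩ := hAF V Q U Hh Vv st lt S I D F G rk M hA htr hR
  have hex : ∀ i : ℕ, ∃ x : V, i < M false → (st x).s = false ∧ rk x = i := by
    intro i
    by_cases h : i < M false
    · obtain ⟨x, hx⟩ := hR.sur false i h
      exact ⟨x, fun _ => hx⟩
    · exact ⟨Classical.arbitrary V, fun h' => absurd h' h⟩
  choose x hx using hex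
  refine ⟨M false, q, fun i => st (x i), ?_, ?_⟩
  · constructor
    · exact hq0
    · exact hqM
    · intro i _
      exact hA.un (x i)
    · intro i hi
      have h := (hfl (x i) (hx i hi).1).1
      rwa [(hx i hi).2] at h
    · intro i hi
      have h := (hfl (x i) (hx i hi).1).2
      rwa [(hx i hi).2] at h
    · exact ((hmm (x 0) (hx 0 hM0).1).2.2 (hx 0 hM0).2).2
    · have hi : M false - 1 < M false := by omega
      have h := (hmm (x (M false - 1)) (hx _ hi).1).1.2 (by rw [(hx _ hi).2]; omega)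
      exact h.2
    · intro i hi
      have hi' : i < M false := by omega
      have h1 := hx i hi'
      have h2 := hx (i + 1) hi
      have hSxy : S (x i) (x (i + 1)) := (hS _ _ h1.1 h2.1).2 (by rw [h1.2, h2.2])
      obtain ⟨_, h3, h4, h5⟩ := hA.sl _ _ h1.1 h2.1 hSxy
      refine ⟨h3, fun hq => ?_, h5⟩
      have f1 : (st (x i)).fc = true := (hfl (x i) h1.1).1.2 (by rw [h1.2]; omega)
      have f2 : (st (x (i + 1))).fc = true := (hfl (x (i + 1)) h2.1).1.2 (by rw [h2.2]; omega)
      rw [h4 f1, f2]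
      rfl
    · intro i hi
      have hi' : i < M false := by omega
      have h1 := hx i hi'
      have h2 := hx (i + q) hi
      obtain ⟨y, hy1, hy2⟩ := hR.sur true (i + q) (by rw [hMM]; exact hi)
      have hFxy : F (x i) y := (hF _ _ h1.1 hy1).2 (by rw [h1.2, hy2])
      have hIzy : I (x (i + q)) y := (hI _ _ h2.1 hy1).2 (by rw [h2.2, hy2])
      obtain ⟨_, _, _, a1, a2, a3⟩ := hA.fl _ _ h1.1 hy1 hFxy
      obtain ⟨_, _, _, b1, b2, b3⟩ := hA.il _ _ h2.1 hy1 hIzy
      refine ⟨?_, ?_, ?_⟩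
      · exact b1.trans a1.symm
      · exact b2.trans a2.symm
      · show Hh (st (x i)).q (st (x (i + q))).q
        rw [b3]
        exact a3
  · rw [hR.card, hMM]
    omega

end Pool.Agent.H56.WP
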